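import Pool.Agent.H20.DG.Main

/-!
MP_b9fedf_ag, Q1: open sets of Brody hyperbolic diagonal complete intersections, with a number of
equations that is linear in the dimension, for every exponent `m ≥ 2`.

Let `m ≥ 2` and `b (m - 1) ≥ 3` (`b = 3` for `m = 2`, `b = 2` for `m = 3`, `b = 1` for `m ≥ 4`). Let
`n ≥ 1` and `n + 1 + r ≥ (b + 2) (2 n - 1)`. There is a nonempty open set (in the classical topology)
of complex `r × (n + 1 + r)` matrices `C` such that the following holds: if `Y` is any projective
variety and `G_0, …, G_{n+r}` are any forms of the same degree without common zeros on `Y` then the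
subvariety `∑_j C l j * G_j ^ m = 0` (`l = 1, …, r`) of `Y` is Brody hyperbolic. In particular the
`n`-dimensional complete intersections `∑_j C l j * x_j ^ m = 0` in `ℙⁿ⁺ʳ` are hyperbolic, for
instance of diagonal quadrics if `r ≥ 9 n - 6`. More generally, any hyperbolic diagonal complete
intersections of dimensions `k_i` may be used, `∑ k_i ≥ 2 n - 1`.

In terms of hyperplanes: for `q ≥ (b + 2) (2 n - 1)` hyperplanes in `ℙⁿ`, in an open set of
arrangements, all entire curves along which the equations of the hyperplanes are `m`-th powers are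
constant.

Proof. A diagonal complete intersection of dimension `k` with `q` coordinates is an arrangement of `q`
hyperplanes in `ℙᵏ`. The arrangements of points in `ℙ¹` in question give diagonal curves of genus at
least two, which are hyperbolic. Let `s_i` be distinct numbers and let `P_i` map a polynomial of degree
at most `n` to its jet of order `k_i` at `s_i`, a point of `ℙ^(k_i)`. The union of the inverse images
of the arrangements under the `P_i` is an arrangement in `ℙⁿ`. On an entire curve in its diagonal
complete intersection all the jets are constant, so the Wronskian of two of the polynomials `f`, `g`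
vanishes at `s_i` to the order `k_i`. Its degree is at most `2 n - 2` (after subtraction of a multiple
of `f` from `g`), so it is zero and the curve is constant. By the openness of hyperbolicity the
neighbouring diagonal complete intersections are hyperbolic too.
-/

set_option autoImplicit false

namespace Pool.Agent.Results.MP_b9fedf_ag.DiagonalIntersections

open MvPolynomial

/-- The projective variety in `ℙᴺ` with the equations `T` is Brody hyperbolic: every entire curve in
it, given by entire functions `f_0, …, f_N` without common zeros, is constant. -/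
def BrodyHyperbolic {N : ℕ} (T : Set (MvPolynomial (Fin (N + 1)) ℂ)) : Prop :=
  ∀ f : ℂ → (Fin (N + 1) → ℂ), Differentiable ℂ f → (∀ z, f z ≠ 0) →
    (∀ z, ∀ p ∈ T, eval (f z) p = 0) → ∀ z w, ∃ c : ℂ, f w = c • f z

/-- Let `m ≥ 2` and `b (m - 1) ≥ 3`. Let the diagonal complete intersections
`∑_j A i l j * x_j ^ m = 0` (`l < c_i`) in `ℙ^(k_i + c_i)`, `i < p`, be Brody hyperbolic, with linearly
independent equations (`p = 0` is allowed). Let `∑ k_i + t ≥ 2 n - 1`, and let
`n + 1 + r = ∑ (k_i + c_i + 1) + t (b + 2) + u`. Then there are an `r × (n + 1 + r)` matrix `C0` and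
`ε > 0` such that for all matrices `C` whose entries differ from those of `C0` by less than `ε`, for
all closed subsets `Y` of `ℙᴺ`, given by a set `S` of forms, and for all forms `G_0, …, G_{n+r}` of the
same degree `e ≥ 1` without common zeros on `Y`, the variety
`{x ∈ Y | ∑_j C l j * G_j(x) ^ m = 0 for all l}` is Brody hyperbolic. -/
theorem result (n r m b p t u : ℕ) (hb : 3 ≤ b * (m - 1)) (k c : Fin p → ℕ)
    (A : (i : Fin p) → Matrix (Fin (c i)) (Fin (k i + c i + 1)) ℂ)
    (hA : ∀ i, LinearIndependent ℂ (A i))
    (hyp : ∀ i, BrodyHyperbolic (Set.range fun l => ∑ j, MvPolynomial.C (A i l j) * X j ^ m))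
    (hn : 2 * n ≤ ∑ i, k i + t + 1)
    (hr : n + 1 + r = ∑ i, (k i + c i + 1) + t * (b + 2) + u) :
    ∃ (C0 : Matrix (Fin r) (Fin (n + r + 1)) ℂ) (ε : ℝ), 0 < ε ∧
      ∀ C : Matrix (Fin r) (Fin (n + r + 1)) ℂ, (∀ l j, ‖C l j - C0 l j‖ < ε) →
      ∀ (N : ℕ) (S : Set (MvPolynomial (Fin (N + 1)) ℂ)), (∀ p ∈ S, ∃ a, p.IsHomogeneous a) →
      ∀ e : ℕ, 1 ≤ e → ∀ G : Fin (n + r + 1) → MvPolynomial (Fin (N + 1)) ℂ,
        (∀ j, (G j).IsHomogeneous e) →
        (∀ x, x ≠ 0 → (∀ p ∈ S, eval x p = 0) → ∃ j, eval x (G j) ≠ 0) →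
        BrodyHyperbolic (S ∪ Set.range fun l => ∑ j, MvPolynomial.C (C l j) * G j ^ m) := by
  have hm : 1 ≤ m := by
    by_contra h0
    have : m = 0 := by omega
    rw [this] at hb
    simp at hb
  have hB : ∀ i, Pool.Agent.K7.H11.LM.Brody (Pool.Agent.H20.DG.diag m (A i)) := by
    intro i f hf hf0 hfH z w
    exact hyp i f hf hf0 (by
      rintro z _ ⟨l, rfl⟩
      exact hfH z l) w z
  obtain ⟨C0, hC0⟩ := Pool.Agent.H20.DG.compose n r m b p t u hm hb k c A hA hB hn (by omega)
    (by omega)
  obtain ⟨ε, hε, h⟩ := Pool.Agent.H20.DG.diag_open C0 hC0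
  refine ⟨C0, ε, hε, fun C hC N S hS e he G hG hG0 f hf hf0 hfT z w => ?_⟩
  exact Pool.Agent.H20.DG.diag_pull C (h C hC) N S hS e he G hG hG0 f hf hf0
    (fun z p hp => hfT z p (Or.inl hp)) (fun z l => hfT z _ (Or.inr ⟨l, rfl⟩)) z w

end Pool.Agent.Results.MP_b9fedf_ag.DiagonalIntersections
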