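import Pool.Agent.H20.CI.Cmp
import Pool.Agent.H20.CI.Ext

/-!
MP_b9fedf_ag, Q1: open sets of Brody hyperbolic complete intersections, made from hyperbolic varieties
of smaller dimension and from sums of few powers of linear forms.

Let `X_1, …, X_m` be any Brody hyperbolic varieties, `X_i` given by `c_i` equations in `ℙ^(k_i + c_i)`
(so `k_i` is the expected dimension), and let `δ_1, …, δ_q ≥ 1`. If

  `∑ k_i + ∑ (⌊√δ_l⌋ - 1) ≥ 2 n - 1`

then there is a nonempty open set (in the classical topology) of the space of all tuples of forms in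
`n + ∑ c_i + q + 1` variables, whose degrees are those of all the equations of the `X_i` together with
`δ_1, …, δ_q`, such that all the corresponding `n`-dimensional intersections are Brody hyperbolic. The
theorem is proved on an arbitrary projective variety `Y` of dimension `n + ∑ c_i + q`.

Examples. `m = 0`, `q = 1`: hypersurfaces of degree `4 n ^ 2` (Shiffman and Zaidenberg). `m = 0`: a
complete intersection of `n` hypersurfaces of degree `9` in `ℙ²ⁿ`, of `⌈(2 n - 1) / 3⌉` hypersurfaces
of degree `16`, and so on. `q = 0`, `X_i` a surface of degree `d` in `ℙ³`: a complete intersection of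
`n` hypersurfaces of degree `d` in `ℙ²ⁿ`. `q = 0` and all `X_i` plane quartics: `2 n - 1` quartics in
`ℙ^(3 n - 1)`.

Proof. Put `M_i = k_i + c_i` and `N = n + ∑ c_i + q`. Take linear maps `A_i : ℂᴺ⁺¹ → ℂ^(M_i + 1)`, small
numbers `ε_ijp` and linear forms `w_lk` (`k ≤ ⌊√δ_l⌋ + 1`) whose coefficients are algebraically
independent over the field generated by the coefficients of the equations `H_ij` of the `X_i`, and the
equations `H'_ij (A_i x) = 0` with `H'_ij = H_ij + ∑_p ε_ijp x_p ^ D_ij`, and `∑_k w_lk ^ δ_l = 0`. Let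
`f` be an entire curve in their variety. By the openness of hyperbolicity `H'_i = 0` is hyperbolic, so
`A_i f(z)` and `A_i f(w)` are multiples of one vector `h_i`, which is a zero of the `H'_ij`; and by
Cartan's theorem (in the form of the library, `(s - 1) ^ 2 ≤ δ` for a sum of `s` powers) the line
through `f(z)` and `f(w)` is contained in the hypersurfaces `∑_k w_lk ^ δ_l = 0`. If this line does not
degenerate, it depends on `2 N - 2` parameters, and given it the coefficients of `A_i` and `ε_i`
satisfy `M_i + c_i` independent conditions, and those of the `w_lk` satisfy `⌊√δ_l⌋ + 1` independent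
conditions. The sum of these numbers is at least `2 N - 1`, so this contradicts the algebraic
independence.
-/

set_option autoImplicit false

namespace Pool.Agent.Results.MP_b9fedf_ag.IntersectionsOfCones

open MvPolynomial

/-- The projective variety in `ℙᴺ` with the equations `T` is Brody hyperbolic: every entire curve in
it, given by entire functions `f_0, …, f_N` without common zeros, is constant. -/
def BrodyHyperbolic {N : ℕ} (T : Set (MvPolynomial (Fin (N + 1)) ℂ)) : Prop :=
  ∀ f : ℂ → (Fin (N + 1) → ℂ), Differentiable ℂ f → (∀ z, f z ≠ 0) →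
    (∀ z, ∀ p ∈ T, eval (f z) p = 0) → ∀ z w, ∃ c : ℂ, f w = c • f z

/-- Let `X_1, …, X_m` be Brody hyperbolic varieties, `X_i` given by `c_i` equations `H i j = 0` of
degrees `D i j` in `ℙ^(k_i + c_i)`, and let `δ_1, …, δ_q ≥ 1` be such that
`∑ k_i + ∑ (⌊√δ_l⌋ - 1) ≥ 2 n - 1`. Let `Y` be a closed subset of `ℙᴺ`, given by a set `S` of forms, and
let `e ≥ 1` be such that there are `n + ∑ c_i + q + 1` forms `L i` of degree `e` without common zeros on
`Y` (if `Y` has dimension at most `n + ∑ c_i + q` this is so for every `e ≥ 1`; for instance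
`Y = ℙ^(n + ∑ c_i + q)`, `e = 1` and `L i` the coordinates). Then there are forms `F0 j` of degrees
`e * D i j` and `e * δ l`, and `ε > 0`, such that for all forms `F j` of these degrees, whose
coefficients differ from those of the `F0 j` by less than `ε`, the variety
`{x ∈ Y | F j (x) = 0 for all j}` is Brody hyperbolic. -/
theorem result (n m q : ℕ) (k c : Fin m → ℕ) (D : (i : Fin m) → Fin (c i) → ℕ)
    (H : (i : Fin m) → Fin (c i) → MvPolynomial (Fin (k i + c i + 1)) ℂ)
    (hH : ∀ i j, (H i j).IsHomogeneous (D i j))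
    (hyp : ∀ i, BrodyHyperbolic (Set.range (H i)))
    (δ : Fin q → ℕ) (hδ : ∀ l, 1 ≤ δ l)
    (hn : 2 * n + q ≤ ∑ i, k i + ∑ l, Nat.sqrt (δ l) + 1)
    (N : ℕ) (S : Set (MvPolynomial (Fin (N + 1)) ℂ)) (hS : ∀ p ∈ S, ∃ a, p.IsHomogeneous a)
    (e : ℕ) (he : 1 ≤ e) (L : Fin (n + (∑ i, c i + q) + 1) → MvPolynomial (Fin (N + 1)) ℂ)
    (hL : ∀ i, (L i).IsHomogeneous e)
    (hL0 : ∀ x, x ≠ 0 → (∀ p ∈ S, eval x p = 0) → ∃ i, eval x (L i) ≠ 0) :
    ∃ F0 : (Σ i, Fin (c i)) ⊕ Fin q → MvPolynomial (Fin (N + 1)) ℂ,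
      (∀ j, (F0 j).IsHomogeneous (e * Sum.elim (fun p : Σ i, Fin (c i) => D p.1 p.2) δ j)) ∧
      ∃ ε : ℝ, 0 < ε ∧ ∀ F : (Σ i, Fin (c i)) ⊕ Fin q → MvPolynomial (Fin (N + 1)) ℂ,
        (∀ j, (F j).IsHomogeneous (e * Sum.elim (fun p : Σ i, Fin (c i) => D p.1 p.2) δ j)) →
        (∀ j a, ‖(F j).coeff a - (F0 j).coeff a‖ < ε) →
        BrodyHyperbolic (S ∪ Set.range F) := by
  have hB : ∀ i, Pool.Agent.K7.H11.LM.Brody (H i) := by
    intro i f hf hf0 hfH z w
    exact hyp i f hf hf0 (by
      rintro z _ ⟨j, rfl⟩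
      exact hfH z j) w z
  obtain ⟨G, hG, hGB⟩ := Pool.Agent.H20.CI.exists_system (n + (∑ i, c i + q)) m q
    (fun i => k i + c i) c (fun i => by omega) D H hH hB δ (fun l => Nat.sqrt (δ l) + 1) hδ
    (fun l => by
      rw [Nat.add_sub_cancel]
      exact Nat.sqrt_le' _)
    (fun l => by
      have := Nat.sqrt_le_self (δ l)
      omega)
    (by
      simp only [Finset.sum_add_distrib, Finset.sum_const, Finset.card_univ, Fintype.card_fin,
        smul_eq_mul, mul_one]
      omega)
  obtain ⟨F0, h0, ε, hε, h⟩ := Pool.Agent.H20.CI.extend _ G hG hGB N S hS e he L hL hL0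
  refine ⟨F0, h0, ε, hε, fun F hF hclose f hf hf0 hfT z w => ?_⟩
  exact h F hF hclose f hf hf0 (fun z p hp => hfT z p (Or.inl hp))
    (fun z l => hfT z _ (Or.inr ⟨l, rfl⟩)) w z

end Pool.Agent.Results.MP_b9fedf_ag.IntersectionsOfCones
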