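import Pool.Agent.H20.CX.Fin
import Pool.Agent.H20.CI.Ext

/-!
MP_b9fedf_ag, Q1: open sets of Brody hyperbolic complete intersections of few hypersurfaces of low
degrees.

Let `n ≥ 1`. In the space of all complete intersections of `r` hypersurfaces of degrees `d_1, …, d_r` in
`ℙⁿ⁺ʳ` the hyperbolic ones contain a nonempty open set (classical topology)

* if all `d_l ≥ 2`, `r ≥ 2 n + 1` and `r ≥ ⌊10 n / 3⌋ - 3`, for instance for `r` quadrics;
* if all `d_l ≥ 3` and `r ≥ ⌊5 n / 2⌋`, for instance for `r` cubics.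

(Every intersection of `2 n - 2` quadrics in `ℙ³ⁿ⁻²` contains lines.) Both are special cases of a
general theorem: let `X_1, …, X_m` be any Brody hyperbolic varieties, `X_i` given by `c_i` equations in
`ℙ^(k_i + c_i)`, and let `s ≥ 1` be such that

  `(v + 1) (n - v) + v + 2 ≤ s + v ∑ k_i`   for `1 ≤ v ≤ n`;

then the statement holds for `r = ∑ c_i + s` hypersurfaces, whose degrees are those of all the equations
of the `X_i` and any numbers `δ_1, …, δ_s ≥ 2`. The first part is the case where the `X_i` are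
threefolds given by seven equations, which exist by the theorem (`m = 0`, `n = 3`, `s = 7`). All this is
proved on an arbitrary projective variety `Y` instead of `ℙⁿ⁺ʳ`.

Proof. Put `N = n + ∑ c_i`. Take linear maps `A_i : ℂᴺ⁺¹ → ℂ^(k_i + c_i + 1)`, small perturbations
`H'_ij` of the equations of `X_i` and linear forms `L_j` on `ℂᴺ⁺¹`, `j` modulo `s`, whose coefficients
are algebraically independent over the coefficients of the equations of the `X_i`, and, in
`ℙᴺ⁺ˢ` with coordinates `x_0, …, x_N, D_1, …, D_s`, the equations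

  `H'_ij (A_i x) = 0`,  `D_j ^ δ_j = L_j(x) ^ δ_j + ε L_{j+1}(x) ^ δ_j`.

If for all small `ε` there is an entire curve, then by Brody's theorem there is a limit curve for
`ε = 0`. On it `D_j = ζ_j L_j(x)`, and `x` is a nonconstant curve `g` in `⋂ A_i⁻¹(X_i)`. By Hurwitz's
theorem every zero of `L_j(g)` is a zero of `L_{j+1}(g)` if `L_j(g)` is not identically zero. (For
one equation this is the deformation method of Zaidenberg.) Let `W` be the linear span of `g`, of
dimension `v + 1`. Either the `L_j(g)` which are not zero have no zeros, and are determined up to factors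
by a basis of the functions without zeros in the span of the coordinates of `g` (Borel), or many of them
have a common zero. It follows that the restrictions of the `L_j` to `W` are algebraic over a field
generated by `s v + v + 1` numbers. As `X_i` is hyperbolic, `A_i g` is constant, which gives
`v (k_i + c_i) + c_i` conditions for `A_i` and the perturbation. The space `W` depends on `(v + 1) (N - v)`
parameters, so the algebraic independence is contradicted.
-/

set_option autoImplicit false

namespace Pool.Agent.Results.MP_b9fedf_ag.LinearCodimension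

open MvPolynomial

/-- The projective variety in `ℙᴺ` with the equations `T` is Brody hyperbolic: every entire curve in
it, given by entire functions `f_0, …, f_N` without common zeros, is constant. -/
def BrodyHyperbolic {N : ℕ} (T : Set (MvPolynomial (Fin (N + 1)) ℂ)) : Prop :=
  ∀ f : ℂ → (Fin (N + 1) → ℂ), Differentiable ℂ f → (∀ z, f z ≠ 0) →
    (∀ z, ∀ p ∈ T, eval (f z) p = 0) → ∀ z w, ∃ c : ℂ, f w = c • f z

/-- Let `Y` be any closed subset of any `ℙᴺ`, given by a set `S` of forms, and let `e ≥ 1` be such that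
there are `n + r + 1` forms `L i` of degree `e` without common zeros on `Y`, where `r` is the number of
the degrees `d l` (if `Y` has dimension at most `n + r` this is so for every `e ≥ 1`; for instance
`Y = ℙⁿ⁺ʳ`, `e = 1` and `L i` the coordinates). Then there are forms `F0 l` of degrees `e * d l`, and
`ε > 0`, such that for all forms `F l` of these degrees, whose coefficients differ from those of the
`F0 l` by less than `ε`, the variety `{x ∈ Y | F l (x) = 0 for all l}` is Brody hyperbolic. -/
def OpenHyperbolic (n : ℕ) {ι : Type} [Fintype ι] (d : ι → ℕ) : Prop :=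
  ∀ (N : ℕ) (S : Set (MvPolynomial (Fin (N + 1)) ℂ)), (∀ p ∈ S, ∃ a, p.IsHomogeneous a) →
    ∀ e : ℕ, 1 ≤ e → ∀ L : Fin (n + Fintype.card ι + 1) → MvPolynomial (Fin (N + 1)) ℂ,
    (∀ i, (L i).IsHomogeneous e) →
    (∀ x, x ≠ 0 → (∀ p ∈ S, eval x p = 0) → ∃ i, eval x (L i) ≠ 0) →
    ∃ F0 : ι → MvPolynomial (Fin (N + 1)) ℂ, (∀ l, (F0 l).IsHomogeneous (e * d l)) ∧
      ∃ ε : ℝ, 0 < ε ∧ ∀ F : ι → MvPolynomial (Fin (N + 1)) ℂ,
        (∀ l, (F l).IsHomogeneous (e * d l)) → (∀ l a, ‖(F l).coeff a - (F0 l).coeff a‖ < ε) →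
        BrodyHyperbolic (S ∪ Set.range F)

lemma openHyperbolic_of {n : ℕ} {ι : Type} [Fintype ι] {d : ι → ℕ}
    (G : ι → MvPolynomial (Fin (n + Fintype.card ι + 1)) ℂ)
    (hG : ∀ l, (G l).IsHomogeneous (d l)) (hGB : Pool.Agent.K7.H11.LM.Brody G) :
    OpenHyperbolic n d := by
  intro N S hS e he L hL hL0
  obtain ⟨F0, h0, ε, hε, h⟩ := Pool.Agent.H20.CI.extend _ G hG hGB N S hS e he L hL hL0
  refine ⟨F0, h0, ε, hε, fun F hF hclose f hf hf0 hfT z w => ?_⟩
  exact h F hF hclose f hf hf0 (fun z p hp => hfT z p (Or.inl hp))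
    (fun z l => hfT z _ (Or.inr ⟨l, rfl⟩)) w z

/-- (1) All degrees at least two. (2) All degrees at least three. (3) The general theorem, with any
hyperbolic varieties `X_i`, given by `c_i` equations `H i j = 0` of degrees `D i j` in `ℙ^(k_i + c_i)`,
and `s` further degrees. -/
theorem result :
    (∀ (n r : ℕ) (d : Fin r → ℕ), 1 ≤ n → 2 * n + 1 ≤ r → 10 * n / 3 ≤ r + 3 → (∀ l, 2 ≤ d l) →
      OpenHyperbolic n d) ∧
    (∀ (n r : ℕ) (d : Fin r → ℕ), 1 ≤ n → 5 * n / 2 ≤ r → (∀ l, 3 ≤ d l) →
      OpenHyperbolic n d) ∧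
    (∀ (n m s : ℕ) (k c : Fin m → ℕ) (D : (i : Fin m) → Fin (c i) → ℕ)
      (H : (i : Fin m) → Fin (c i) → MvPolynomial (Fin (k i + c i + 1)) ℂ) (δ : Fin s → ℕ),
      (∀ i j, (H i j).IsHomogeneous (D i j)) → (∀ i, BrodyHyperbolic (Set.range (H i))) →
      1 ≤ s → (∀ l, 2 ≤ δ l) →
      (∀ v, 1 ≤ v → v ≤ n → (v + 1) * (n - v) + v + 2 ≤ s + v * ∑ i, k i) →
      OpenHyperbolic n (Sum.elim (fun p : Σ i, Fin (c i) => D p.1 p.2) δ)) := by
  refine ⟨fun n r d hn hr hr' hd => ?_, fun n r d hn hr hd => ?_,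
    fun n m s k c D H δ hH hyp hs hδ hn => ?_⟩
  · obtain ⟨G, hG, hGB⟩ := Pool.Agent.H20.CX.ex_two hn hr hr' d hd
    have h1 := openHyperbolic_of (n := n) (d := d) (ι := Fin r)
    rw [Fintype.card_fin] at h1
    exact h1 G hG hGB
  · obtain ⟨G, hG, hGB⟩ := Pool.Agent.H20.CX.ex_three hn hr d hd
    have h1 := openHyperbolic_of (n := n) (d := d) (ι := Fin r)
    rw [Fintype.card_fin] at h1
    exact h1 G hG hGB
  · have hB : ∀ i, Pool.Agent.K7.H11.LM.Brody (H i) := by
      intro i f hf hf0 hfH z w
      exact hyp i f hf hf0 (by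
        rintro z _ ⟨j, rfl⟩
        exact hfH z j) w z
    obtain ⟨G, hG, hGB⟩ := Pool.Agent.H20.CX.general n m s hs k c D H hH hB δ hδ hn _
      (Equiv.refl _) (n + Fintype.card ((Σ i, Fin (c i)) ⊕ Fin s)) (by
        simp [Fintype.card_sum, Fintype.card_sigma])
    exact openHyperbolic_of G hG hGB

end Pool.Agent.Results.MP_b9fedf_ag.LinearCodimension
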