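import Pool.Agent.H20.OV.Var

/-!
MP_b9fedf_ag, Q1: Brody hyperbolicity of the projective varieties given by at least
`16 n ^ 2 + n - 2` generic linear relations between powerful forms, in particular of the generic
`n`-dimensional complete intersections of diagonal hypersurfaces of any degree `d ≥ 2`.

In terms of orbifolds: if `q ≥ 16 n ^ 2 + 2 n - 1` and `L_1, …, L_q` are generic hyperplanes in `ℙⁿ`,
then all entire curves in `ℙⁿ` which meet every `L_i` only with multiplicities at least two are constant
(`Pool.Agent.H20.OV.orb'`).

The library has such a theorem for `q ≥ 32 n ^ 3` (`PowerfulRelations`): for `16 n ^ 2` generic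
hyperplanes there are negative symmetric differential forms with the poles allowed by the multiplicity
two, every curve as above satisfies the corresponding differential equations (Brody's lemma and
Liouville's theorem), and if there are `2 n` disjoint groups of `16 n ^ 2` hyperplanes then at every
point and in every direction the form of one of the groups does not vanish. Here we show that the
groups may overlap: a point with a tangent direction depends on `2 n - 1` parameters, so among the
`q` hyperplanes with algebraically independent coefficients all but `2 n - 1` remain algebraically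
independent over the field generated by the point and the direction, and any `16 n ^ 2` of these may be
used as the group. So the number of hyperplanes is quadratic in `n` instead of cubic.
-/

set_option autoImplicit false

namespace Pool.Agent.Results.MP_b9fedf_ag.QuadraticallyManyPowerful

open MvPolynomial

/-- The projective variety in `ℙᴺ` with the equations `T` is Brody hyperbolic: every entire curve in
it, given by entire functions `f_0, …, f_N` without common zeros, is constant. -/
def BrodyHyperbolic {N : ℕ} (T : Set (MvPolynomial (Fin (N + 1)) ℂ)) : Prop :=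
  ∀ f : ℂ → (Fin (N + 1) → ℂ), Differentiable ℂ f → (∀ z, f z ≠ 0) →
    (∀ z, ∀ p ∈ T, eval (f z) p = 0) → ∀ z w, ∃ c : ℂ, f w = c • f z

/-- A powerful polynomial: a product of powers of polynomials with exponents at least two.
(Every integer which is at least two is of the form `2 a + 3 b`.) -/
def Powerful {N : ℕ} (P : MvPolynomial (Fin (N + 1)) ℂ) : Prop :=
  ∃ G H : MvPolynomial (Fin (N + 1)) ℂ, P = G ^ 2 * H ^ 3

/-- Let `n ≥ 1` and `n + 1 + r ≥ 16 n ^ 2 + 2 n - 1`. There is a nonzero polynomial `h` with rational
coefficients in the entries of the `r × (n + 1 + r)` matrices such that for all complex matrices `C`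
with `h(C) ≠ 0` the following holds for all `N` and all `d ≥ 1`.

Let `Y` be any closed subvariety of `ℙᴺ`, given by a set `S` of forms, and let
`F_0, …, F_{n+r}` be powerful forms of degree `d` without common zeros on `Y`. Then the subvariety
`X = {x ∈ Y | ∑ i, C l i * F_i(x) = 0 for all l}` of `Y` is Brody hyperbolic: every holomorphic map
from `ℂ` to `X` is constant. -/
theorem result (n r : ℕ) (hn : 1 ≤ n) (hr : 16 * n ^ 2 + 2 * n ≤ n + 1 + r + 1) :
    ∃ h : MvPolynomial (Fin r × Fin (n + 1 + r)) ℚ, h ≠ 0 ∧
      ∀ C : Matrix (Fin r) (Fin (n + 1 + r)) ℂ,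
        aeval (fun p : Fin r × Fin (n + 1 + r) => C p.1 p.2) h ≠ 0 →
      ∀ (N d : ℕ), 1 ≤ d → ∀ (S : Set (MvPolynomial (Fin (N + 1)) ℂ))
        (F : Fin (n + 1 + r) → MvPolynomial (Fin (N + 1)) ℂ),
        (∀ p ∈ S, ∃ e, p.IsHomogeneous e) → (∀ i, (F i).IsHomogeneous d) →
        (∀ i, Powerful (F i)) →
        (∀ x, x ≠ 0 → (∀ p ∈ S, eval x p = 0) → ∃ i, eval x (F i) ≠ 0) →
        BrodyHyperbolic (S ∪ Set.range fun l => ∑ i, MvPolynomial.C (C l i) * F i) := by
  obtain ⟨h, hh, hmain⟩ := Pool.Agent.H20.OV.main' n r hn hr
  refine ⟨h, hh, fun C hC N d hd S F hS hF hpow hne f hf hf0 hfT => ?_⟩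
  refine hmain C hC (N + 1) d hd S F hS hF hpow hne f hf hf0
    (fun z p hp => hfT z p (Or.inl hp)) (fun z l => ?_)
  have h1 := hfT z _ (Or.inr ⟨l, rfl⟩)
  rw [map_sum] at h1
  rw [← h1]
  refine Finset.sum_congr rfl fun i _ => ?_
  rw [map_mul, eval_C]

end Pool.Agent.Results.MP_b9fedf_ag.QuadraticallyManyPowerful
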